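import Pool.Agent.Helper60.SB.Defs3

/-! Module U3 of MP_7fc85e_an: expected sup norm of a Gaussian trigonometric polynomial -/

open Finset MeasureTheory
open scoped ENNReal Real

namespace Pool.Agent.Helper77.SB

open Pool.Agent.Helper60.SB

/-- the phase `⟨k, x⟩` -/
noncomputable def ph {d : ℕ} (k : Fin d → ℤ) (x : Fin d → ℝ) : ℝ := ∑ j, (k j : ℝ) * x j

lemma ex_eq {d : ℕ} (k : Fin d → ℤ) (x : Fin d → ℝ) :
    ex k x = Complex.exp ((ph k x : ℂ) * Complex.I) := by
  unfold ex ph
  congr 1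
  push_cast; ring

lemma ex_sub_le {d : ℕ} (k : Fin d → ℤ) (x x' : Fin d → ℝ) :
    ‖ex k x - ex k x'‖ ≤ ∑ j, |(k j : ℝ)| * |x j - x' j| := by
  have h1 : ex k x - ex k x' = ex k x' *
      (Complex.exp (Complex.I * ((ph k x - ph k x' : ℝ) : ℂ)) - 1) := by
    rw [mul_sub, mul_one, ex_eq, ex_eq, ← Complex.exp_add]
    congr 2
    push_cast; ring
  rw [h1, norm_mul, norm_ex, one_mul]
  refine (Real.norm_exp_I_mul_ofReal_sub_one_le).trans ?_
  rw [Real.norm_eq_abs]
  have h2 : ph k x - ph k x' = ∑ j, (k j : ℝ) * (x j - x' j) := by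
    unfold ph
    rw [← Finset.sum_sub_distrib]
    exact Finset.sum_congr rfl fun j _ => by ring
  rw [h2]
  refine (Finset.abs_sum_le_sum_abs _ _).trans (le_of_eq ?_)
  exact Finset.sum_congr rfl fun j _ => abs_mul _ _

lemma ex_per {d : ℕ} (k : Fin d → ℤ) (x x' : Fin d → ℝ) (z : Fin d → ℤ)
    (h : ∀ j, x j = x' j + 2 * π * z j) : ex k x = ex k x' := by
  rw [ex_eq, ex_eq, Complex.exp_eq_exp_iff_exists_int]
  refine ⟨∑ j, k j * z j, ?_⟩
  have : ph k x = ph k x' + (∑ j, (k j : ℝ) * z j) * (2 * π) := by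
    unfold ph
    rw [Finset.sum_mul, ← Finset.sum_add_distrib]
    exact Finset.sum_congr rfl fun j _ => by rw [h j]; ring
  rw [this]
  push_cast; ring

lemma TT_sub_le {d : ℕ} (Q : Finset (Fin d → ℤ)) (y : Q × Bool → ℝ) (x x' : Fin d → ℝ) (δ : ℝ)
    (h : ∀ k ∈ Q, ‖ex k x - ex k x'‖ ≤ δ) :
    ‖TT Q y x - TT Q y x'‖ ≤ (∑ k : Q, ‖cco y k‖) * δ := by
  unfold TT
  rw [← Finset.sum_sub_distrib, Finset.sum_mul]
  refine (norm_sum_le _ _).trans (Finset.sum_le_sum fun k _ => ?_)
  rw [← mul_sub, norm_mul]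
  exact mul_le_mul_of_nonneg_left (h k k.2) (norm_nonneg _)

/-- grid point -/
noncomputable def grd {d : ℕ} (n : ℕ) (i : Fin d → Fin n) : Fin d → ℝ :=
  fun j => 2 * π * (i j : ℕ) / n

lemma exists_grd {d : ℕ} (n : ℕ) (hn : 0 < n) (x : Fin d → ℝ) :
    ∃ i : Fin d → Fin n, ∃ x' : Fin d → ℝ, (∀ k : Fin d → ℤ, ex k x' = ex k (grd n i)) ∧
      ∀ j, |x j - x' j| ≤ 2 * π / n := by
  have hn' : (0 : ℝ) < n := by exact_mod_cast hn
  have hnz : (0 : ℤ) < n := by exact_mod_cast hn
  set u : Fin d → ℤ := fun j => ⌊x j * n / (2 * π)⌋ with hu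
  have hmod : ∀ j, (u j % n).toNat < n := by
    intro j
    have h1 := Int.emod_nonneg (u j) hnz.ne'
    have h2 := Int.emod_lt_of_pos (u j) hnz
    omega
  refine ⟨fun j => ⟨(u j % n).toNat, hmod j⟩, fun j => 2 * π * u j / n, ?_, ?_⟩
  · intro k
    apply ex_per k _ _ (fun j => u j / n)
    intro j
    unfold grd
    simp only
    have h1 := Int.emod_nonneg (u j) hnz.ne'
    have h2 : (((u j % n).toNat : ℕ) : ℝ) = ((u j % n : ℤ) : ℝ) := by
      have : (((u j % n).toNat : ℕ) : ℤ) = u j % n := Int.toNat_of_nonneg h1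
      exact_mod_cast this
    rw [h2]
    have h3 : ((u j : ℤ) : ℝ) = n * ((u j / n : ℤ) : ℝ) + ((u j % n : ℤ) : ℝ) := by
      have := Int.mul_ediv_add_emod (u j) n
      exact_mod_cast this.symm
    rw [h3]
    field_simp
    ring
  · intro j
    have h1 := Int.floor_le (x j * n / (2 * π))
    have h2 := Int.lt_floor_add_one (x j * n / (2 * π))
    have hpi : 0 < 2 * π := by positivity
    have h3 : x j - 2 * π * u j / n = (2 * π / n) * (x j * n / (2 * π) - u j) := by
      field_simp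
    simp only
    rw [h3, abs_mul, abs_of_pos (by positivity)]
    have h4 : |x j * n / (2 * π) - u j| ≤ 1 := by
      rw [abs_le]
      constructor
      · simp only [hu]; linarith
      · simp only [hu]; linarith
    calc (2 * π / n) * |x j * n / (2 * π) - u j| ≤ (2 * π / n) * 1 :=
          mul_le_mul_of_nonneg_left h4 (by positivity)
      _ = _ := mul_one _

/-! ### Gaussian integrals -/

lemma gau_mgf {ι : Type*} [Fintype ι] (w : ι → ℝ) :
    Integrable (fun y : ι → ℝ => Real.exp (∑ i, w i * y i)) (gau ι) ∧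
    ∫ y, Real.exp (∑ i, w i * y i) ∂(gau ι) = Real.exp ((∑ i, w i ^ 2) / 2) := by
  have h0 : (fun y : ι → ℝ => Real.exp (∑ i, w i * y i)) =
      fun y => ∏ i, Real.exp (w i * y i) := by
    ext y; rw [Real.exp_sum]
  constructor
  · rw [h0]
    exact Integrable.fintype_prod (f := fun i t => Real.exp (w i * t))
      fun i => ProbabilityTheory.integrable_exp_mul_gaussianReal (w i)
  · rw [h0]
    unfold gau
    rw [integral_fintype_prod_eq_prod (fun i t => Real.exp (w i * t))]
    have h1 : ∀ i, ∫ t, Real.exp (w i * t) ∂(ProbabilityTheory.gaussianReal 0 1) =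
        Real.exp (w i ^ 2 / 2) := by
      intro i
      have := congrFun (ProbabilityTheory.mgf_fun_id_gaussianReal (μ := 0) (v := 1)) (w i)
      simp only [ProbabilityTheory.mgf] at this
      rw [this]
      congr 1
      simp
    rw [Finset.prod_congr rfl fun i _ => h1 i, ← Real.exp_sum, Finset.sum_div]

/-- the real and imaginary parts of `TT`, up to sign, as linear functionals -/
noncomputable def wt {d : ℕ} (Q : Finset (Fin d → ℤ)) (x : Fin d → ℝ) (c : Bool × Bool)
    (a : Q × Bool) : ℝ :=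
  (if c.1 then 1 else -1) *
    (if c.2 then (if a.2 then -Real.sin (ph a.1 x) else Real.cos (ph a.1 x))
      else (if a.2 then Real.cos (ph a.1 x) else Real.sin (ph a.1 x)))

lemma wt_sq {d : ℕ} (Q : Finset (Fin d → ℤ)) (x : Fin d → ℝ) (c : Bool × Bool) :
    ∑ a, wt Q x c a ^ 2 = Q.card := by
  rw [Fintype.sum_prod_type]
  have h1 : ∀ k : Q, ∑ b : Bool, wt Q x c (k, b) ^ 2 = 1 := by
    intro k
    have h2 := Real.sin_sq_add_cos_sq (ph (k : Fin d → ℤ) x)
    rcases c with ⟨c1, c2⟩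
    rw [Fintype.sum_bool]
    cases c1 <;> cases c2 <;> simp [wt]
  rw [Finset.sum_congr rfl fun k _ => h1 k]
  simp

lemma ex_re {d : ℕ} (k : Fin d → ℤ) (x : Fin d → ℝ) : (ex k x).re = Real.cos (ph k x) := by
  rw [ex_eq, Complex.exp_ofReal_mul_I_re]

lemma ex_im {d : ℕ} (k : Fin d → ℤ) (x : Fin d → ℝ) : (ex k x).im = Real.sin (ph k x) := by
  rw [ex_eq, Complex.exp_ofReal_mul_I_im]

lemma cco_re {d : ℕ} {Q : Finset (Fin d → ℤ)} (y : Q × Bool → ℝ) (k : Q) :
    (cco y k).re = y (k, false) := by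
  simp [cco]

lemma cco_im {d : ℕ} {Q : Finset (Fin d → ℤ)} (y : Q × Bool → ℝ) (k : Q) :
    (cco y k).im = y (k, true) := by
  simp [cco]

lemma wt_re {d : ℕ} (Q : Finset (Fin d → ℤ)) (x : Fin d → ℝ) (y : Q × Bool → ℝ) (s : Bool) :
    ∑ a, wt Q x (s, true) a * y a = (if s then 1 else -1) * (TT Q y x).re := by
  rw [Fintype.sum_prod_type]
  unfold TT
  rw [Complex.re_sum, Finset.mul_sum]
  refine Finset.sum_congr rfl fun k _ => ?_
  rw [Fintype.sum_bool, Complex.mul_re, ex_re, ex_im, cco_re, cco_im]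
  cases s <;> simp [wt] <;> ring

lemma wt_im {d : ℕ} (Q : Finset (Fin d → ℤ)) (x : Fin d → ℝ) (y : Q × Bool → ℝ) (s : Bool) :
    ∑ a, wt Q x (s, false) a * y a = (if s then 1 else -1) * (TT Q y x).im := by
  rw [Fintype.sum_prod_type]
  unfold TT
  rw [Complex.im_sum, Finset.mul_sum]
  refine Finset.sum_congr rfl fun k _ => ?_
  rw [Fintype.sum_bool, Complex.mul_im, ex_re, ex_im, cco_re, cco_im]
  cases s <;> simp [wt] <;> ring

/-- the pointwise bound -/
lemma TT_le_exp {d : ℕ} (Q : Finset (Fin d → ℤ)) (y : Q × Bool → ℝ) (n : ℕ)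
    (i : Fin d → Fin n) (l A : ℝ) (hl : 0 < l) (hA : 0 < A) :
    ‖TT Q y (grd n i)‖ ≤ 2 * (l⁻¹ * (Real.log A - 1 +
      A⁻¹ * ∑ i : Fin d → Fin n, ∑ c : Bool × Bool,
        Real.exp (∑ a, (l * wt Q (grd n i) c a) * y a))) := by
  set S := ∑ i : Fin d → Fin n, ∑ c : Bool × Bool,
        Real.exp (∑ a, (l * wt Q (grd n i) c a) * y a) with hS
  -- each functional is at most the bound
  have key : ∀ c : Bool × Bool, ∑ a, wt Q (grd n i) c a * y a ≤
      l⁻¹ * (Real.log A - 1 + A⁻¹ * S) := by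
    intro c
    set t := ∑ a, wt Q (grd n i) c a * y a with ht
    have h1 : Real.exp (l * t) ≤ S := by
      rw [hS]
      refine le_trans ?_ (Finset.single_le_sum (f := fun i : Fin d → Fin n =>
        ∑ c : Bool × Bool, Real.exp (∑ a, (l * wt Q (grd n i) c a) * y a))
        (fun i _ => Finset.sum_nonneg fun c _ => (Real.exp_pos _).le) (Finset.mem_univ i))
      refine le_trans ?_ (Finset.single_le_sum (f := fun c : Bool × Bool =>
        Real.exp (∑ a, (l * wt Q (grd n i) c a) * y a))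
        (fun c _ => (Real.exp_pos _).le) (Finset.mem_univ c))
      apply le_of_eq
      congr 1
      rw [ht, Finset.mul_sum]
      exact Finset.sum_congr rfl fun a _ => by ring
    have h2 : l * t - Real.log A + 1 ≤ A⁻¹ * Real.exp (l * t) := by
      have h3 := Real.add_one_le_exp (l * t - Real.log A)
      have h4 : Real.exp (l * t - Real.log A) = A⁻¹ * Real.exp (l * t) := by
        rw [Real.exp_sub, Real.exp_log hA, div_eq_inv_mul]
      linarith
    have h5 : A⁻¹ * Real.exp (l * t) ≤ A⁻¹ * S :=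
      mul_le_mul_of_nonneg_left h1 (inv_pos.2 hA).le
    have h6 : l * t ≤ Real.log A - 1 + A⁻¹ * S := by linarith
    calc t = l⁻¹ * (l * t) := by field_simp
      _ ≤ _ := mul_le_mul_of_nonneg_left h6 (inv_pos.2 hl).le
  have hre : |(TT Q y (grd n i)).re| ≤ l⁻¹ * (Real.log A - 1 + A⁻¹ * S) := by
    rw [abs_le]
    have h1 := key (true, true)
    have h2 := key (false, true)
    rw [wt_re] at h1 h2
    simp only [if_true, one_mul, Bool.false_eq_true, if_false] at h1 h2
    constructor <;> linarith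
  have him : |(TT Q y (grd n i)).im| ≤ l⁻¹ * (Real.log A - 1 + A⁻¹ * S) := by
    rw [abs_le]
    have h1 := key (true, false)
    have h2 := key (false, false)
    rw [wt_im] at h1 h2
    simp only [if_true, one_mul, Bool.false_eq_true, if_false] at h1 h2
    constructor <;> linarith
  have := Complex.norm_le_abs_re_add_abs_im (TT Q y (grd n i))
  linarith

lemma cco_le {d : ℕ} {Q : Finset (Fin d → ℤ)} (y : Q × Bool → ℝ) :
    ∑ k : Q, ‖cco y k‖ ≤ ∑ a : Q × Bool, (Real.exp (y a) + Real.exp (-y a)) := by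
  rw [Fintype.sum_prod_type]
  refine Finset.sum_le_sum fun k _ => ?_
  rw [Fintype.sum_bool]
  have h1 : ∀ t : ℝ, |t| ≤ Real.exp t + Real.exp (-t) := by
    intro t
    rcases abs_cases t with ⟨h, _⟩ | ⟨h, _⟩
    · rw [h]; linarith [Real.add_one_le_exp t, Real.exp_pos (-t)]
    · rw [h]; linarith [Real.add_one_le_exp (-t), Real.exp_pos t]
  have h2 : ‖cco y k‖ ≤ |y (k, false)| + |y (k, true)| := by
    unfold cco
    refine (norm_add_le _ _).trans ?_
    rw [norm_mul, Complex.norm_I, mul_one, Complex.norm_real, Complex.norm_real]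
    exact le_refl _
  linarith [h1 (y (k, false)), h1 (y (k, true))]

lemma exp_coord {ι : Type*} [Fintype ι] [DecidableEq ι] (a : ι) (s : ℝ) :
    Integrable (fun y : ι → ℝ => Real.exp (s * y a)) (gau ι) ∧
    ∫ y, Real.exp (s * y a) ∂(gau ι) = Real.exp (s ^ 2 / 2) := by
  have h := gau_mgf (fun i => if i = a then s else 0)
  have h1 : ∀ y : ι → ℝ, ∑ i, (if i = a then s else 0) * y i = s * y a := by
    intro y; simp
  have h2 : ∑ i, (if i = a then s else 0) ^ 2 = s ^ 2 := by
    simp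
  simp only [h1, h2] at h
  exact h

set_option maxHeartbeats 1000000 in
theorem gauss_sup (d : ℕ) : ∃ C : ℝ, 0 < C ∧ ∀ (m : ℕ) (Q : Finset (Fin d → ℤ)),
    (∀ k ∈ Q, ∀ j, |k j| ≤ 2 ^ m) →
    ∫ y, supn Q y ∂(gau (Q × Bool)) ≤ C * Real.sqrt (Q.card * (m + 1)) := by
  classical
  -- constant for the logarithm of the number of functionals
  set D : ℝ := Real.log 4 + d * (Real.log (7 * (d + 1)) + 1 + 2 * d) with hD
  have hlog4 : 0 < Real.log 4 := Real.log_pos (by norm_num)
  have hlogd : 0 < Real.log (7 * ((d : ℝ) + 1)) := by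
    apply Real.log_pos
    have : (0 : ℝ) ≤ d := Nat.cast_nonneg d
    linarith
  have hD0 : 0 < D := by
    rw [hD]; positivity
  refine ⟨2 * Real.sqrt (2 * D) + 4 * Real.exp (1 / 2), by positivity, ?_⟩
  intro m Q hQ
  rcases Q.eq_empty_or_nonempty with hQe | hQne
  · -- trivial case
    have h0 : ∀ y, supn Q y ≤ 0 := by
      intro y
      apply supn_le
      intro x
      refine (TT_le Q y x).trans ?_
      subst hQe
      simp
    have h1 : ∫ y, supn Q y ∂(gau (Q × Bool)) ≤ 0 := integral_nonpos h0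
    refine h1.trans (by positivity)
  have hq1 : 1 ≤ Q.card := hQne.card_pos
  have hq1' : (1 : ℝ) ≤ Q.card := by exact_mod_cast hq1
  have hq0 : (0 : ℝ) < Q.card := by linarith
  -- number of frequencies
  set Nb : ℕ := (2 * 2 ^ m + 1) ^ d with hNb
  have hcard : Q.card ≤ Nb := by
    have hsub : Q ⊆ Fintype.piFinset fun _ => Finset.Icc (-2 ^ m : ℤ) (2 ^ m) := by
      intro k hk
      rw [Fintype.mem_piFinset]
      intro j
      rw [Finset.mem_Icc]
      exact abs_le.1 (hQ k hk j)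
    refine (Finset.card_le_card hsub).trans (le_of_eq ?_)
    rw [Fintype.card_piFinset_const, Int.card_Icc, hNb]
    congr 1
    have : (2 ^ m + 1 - (-2 ^ m) : ℤ) = ((2 * 2 ^ m + 1 : ℕ) : ℤ) := by push_cast; ring
    rw [this, Int.toNat_natCast]
  set n : ℕ := 7 * (d + 1) * 2 ^ m * Nb with hn
  have hNbpos : 0 < Nb := by positivity
  have hnpos : 0 < n := by positivity
  have hn0 : (0 : ℝ) < n := by exact_mod_cast hnpos
  -- mesh
  have hmesh : (d : ℝ) * 2 ^ m * (2 * π / n) ≤ (Q.card : ℝ)⁻¹ := by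
    rw [← mul_div_assoc, div_le_iff₀ hn0, inv_mul_eq_div, le_div_iff₀ hq0]
    have h1 : (Q.card : ℝ) ≤ Nb := by exact_mod_cast hcard
    have h2 : (n : ℝ) = 7 * ((d : ℝ) + 1) * 2 ^ m * Nb := by rw [hn]; push_cast; ring
    rw [h2]
    have h3 : 2 * π ≤ 7 := by linarith [Real.pi_lt_d2]
    have hd0 : (0 : ℝ) ≤ d := Nat.cast_nonneg d
    calc (d : ℝ) * 2 ^ m * (2 * π) * Q.card ≤ (d : ℝ) * 2 ^ m * 7 * Nb := by gcongr
      _ ≤ 7 * ((d : ℝ) + 1) * 2 ^ m * Nb := by
        have : (0 : ℝ) ≤ 7 * 2 ^ m * Nb := by positivity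
        nlinarith
  -- number of functionals
  set P : ℝ := 4 * (n : ℝ) ^ d with hP
  have hP4 : 4 ≤ P := by
    rw [hP]
    have : (1 : ℝ) ≤ (n : ℝ) ^ d := one_le_pow₀ (by exact_mod_cast hnpos)
    linarith
  have hlogP : Real.log P ≤ D * (m + 1) := by
    have h1 : Real.log P = Real.log 4 + d * Real.log n := by
      rw [hP, Real.log_mul (by norm_num) (by positivity), Real.log_pow]
    have h2 : Real.log n ≤ Real.log (7 * (d + 1)) + m + d * (m + 2) := by
      have h3 : (n : ℝ) = (7 * ((d : ℝ) + 1)) * 2 ^ m * Nb := by rw [hn]; push_cast; ring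
      rw [h3, Real.log_mul (by positivity) (by positivity), Real.log_mul (by positivity)
        (by positivity), Real.log_pow]
      have h4 : Real.log Nb ≤ d * (m + 2) := by
        have h5 : (Nb : ℝ) = (2 * 2 ^ m + 1 : ℝ) ^ d := by rw [hNb]; push_cast; ring
        rw [h5, Real.log_pow]
        apply mul_le_mul_of_nonneg_left _ (Nat.cast_nonneg d)
        have h6 : (2 * 2 ^ m + 1 : ℝ) ≤ 2 ^ (m + 2) := by
          have : (1 : ℝ) ≤ 2 ^ m := one_le_pow₀ (by norm_num)
          rw [pow_add]; linarith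
        refine (Real.log_le_log (by positivity) h6).trans ?_
        rw [Real.log_pow]
        have h7 : Real.log 2 ≤ 1 := by linarith [Real.log_two_lt_d9]
        push_cast
        nlinarith [Real.log_pos one_lt_two, (Nat.cast_nonneg m : (0 : ℝ) ≤ m)]
      have h8 : (m : ℝ) * Real.log 2 ≤ m := by
        have h7 : Real.log 2 ≤ 1 := by linarith [Real.log_two_lt_d9]
        nlinarith [(Nat.cast_nonneg m : (0 : ℝ) ≤ m)]
      linarith
    rw [h1, hD]
    have hd0 : (0 : ℝ) ≤ d := Nat.cast_nonneg d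
    have hm0 : (0 : ℝ) ≤ m := Nat.cast_nonneg m
    have h9 : (d : ℝ) * Real.log n ≤ d * (Real.log (7 * (d + 1)) + m + d * (m + 2)) :=
      mul_le_mul_of_nonneg_left h2 hd0
    have h10 : (0 : ℝ) ≤ Real.log 4 * m := by positivity
    have h11 : (0 : ℝ) ≤ d * (Real.log (7 * (d + 1)) * m) := by positivity
    have h12 : (0 : ℝ) ≤ (d : ℝ) * d * m := by positivity
    nlinarith
  have hlogP0 : 0 < Real.log P := Real.log_pos (by linarith)
  set l : ℝ := Real.sqrt (2 * Real.log P / Q.card) with hl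
  have hl0 : 0 < l := Real.sqrt_pos.2 (by positivity)
  have hl2 : l ^ 2 * Q.card = 2 * Real.log P := by
    rw [hl, Real.sq_sqrt (by positivity)]
    field_simp
  set A : ℝ := P * Real.exp (l ^ 2 * Q.card / 2) with hA
  have hA0 : 0 < A := by positivity
  -- the dominating function
  set g : (Q × Bool → ℝ) → ℝ := fun y => 2 * (l⁻¹ * (Real.log A - 1 +
      A⁻¹ * ∑ i : Fin d → Fin n, ∑ c : Bool × Bool,
        Real.exp (∑ a, (l * wt Q (grd n i) c a) * y a))) +
        (∑ a : Q × Bool, (Real.exp (1 * y a) + Real.exp ((-1) * y a))) * (Q.card : ℝ)⁻¹ with hg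
  have hdom : ∀ y, supn Q y ≤ g y := by
    intro y
    apply supn_le
    intro x
    obtain ⟨i, x', h1, h2⟩ := exists_grd n hnpos x
    have h3 : TT Q y x' = TT Q y (grd n i) := by
      unfold TT
      exact Finset.sum_congr rfl fun k _ => by rw [h1]
    have h4 : ‖TT Q y x - TT Q y x'‖ ≤ (∑ k : Q, ‖cco y k‖) * (Q.card : ℝ)⁻¹ := by
      apply TT_sub_le
      intro k hk
      refine (ex_sub_le k x x').trans (le_trans ?_ hmesh)
      calc ∑ j, |(k j : ℝ)| * |x j - x' j| ≤ ∑ _j : Fin d, (2 : ℝ) ^ m * (2 * π / n) := by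
            refine Finset.sum_le_sum fun j _ => ?_
            apply mul_le_mul _ (h2 j) (abs_nonneg _) (by positivity)
            have := hQ k hk j
            have h5 : ((|k j| : ℤ) : ℝ) ≤ ((2 ^ m : ℤ) : ℝ) := by exact_mod_cast this
            push_cast at h5
            exact h5
        _ = _ := by simp; ring
    have h5 := TT_le_exp Q y n i l A hl0 hA0
    have h6 : ‖TT Q y x‖ ≤ ‖TT Q y x'‖ + ‖TT Q y x - TT Q y x'‖ := by
      have := norm_add_le (TT Q y x') (TT Q y x - TT Q y x')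
      simpa using this
    rw [h3] at h6
    have h7 : (∑ k : Q, ‖cco y k‖) * (Q.card : ℝ)⁻¹ ≤
        (∑ a : Q × Bool, (Real.exp (1 * y a) + Real.exp ((-1) * y a))) * (Q.card : ℝ)⁻¹ := by
      apply mul_le_mul_of_nonneg_right _ (by positivity)
      simpa using cco_le y
    simp only [hg]
    rw [h3] at h4
    linarith
  -- integrability and integral of the dominating function
  have hI1 : ∀ (i : Fin d → Fin n) (c : Bool × Bool),
      Integrable (fun y : Q × Bool → ℝ => Real.exp (∑ a, (l * wt Q (grd n i) c a) * y a))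
        (gau (Q × Bool)) := fun i c => (gau_mgf _).1
  have hI2 : ∀ (i : Fin d → Fin n) (c : Bool × Bool),
      ∫ y : Q × Bool → ℝ, Real.exp (∑ a, (l * wt Q (grd n i) c a) * y a) ∂(gau (Q × Bool)) =
        Real.exp (l ^ 2 * Q.card / 2) := by
    intro i c
    rw [(gau_mgf _).2]
    congr 2
    rw [← wt_sq Q (grd n i) c, Finset.mul_sum]
    exact Finset.sum_congr rfl fun a _ => by ring
  have : IsProbabilityMeasure (gau (Q × Bool)) := by unfold gau; infer_instance
  have hJ1 : Integrable (fun y : Q × Bool → ℝ => ∑ i : Fin d → Fin n, ∑ c : Bool × Bool,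
        Real.exp (∑ a, (l * wt Q (grd n i) c a) * y a)) (gau (Q × Bool)) :=
    integrable_finsetSum _ fun i _ => integrable_finsetSum _ fun c _ => hI1 i c
  have hJ2 : ∫ y : Q × Bool → ℝ, (∑ i : Fin d → Fin n, ∑ c : Bool × Bool,
        Real.exp (∑ a, (l * wt Q (grd n i) c a) * y a)) ∂(gau (Q × Bool)) = A := by
    rw [integral_finsetSum _ fun i _ => integrable_finsetSum _ fun c _ => hI1 i c]
    have : ∀ i : Fin d → Fin n, ∫ y : Q × Bool → ℝ, (∑ c : Bool × Bool,
        Real.exp (∑ a, (l * wt Q (grd n i) c a) * y a)) ∂(gau (Q × Bool)) =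
        4 * Real.exp (l ^ 2 * Q.card / 2) := by
      intro i
      rw [integral_finsetSum _ fun c _ => hI1 i c, Finset.sum_congr rfl fun c _ => hI2 i c]
      simp
    rw [Finset.sum_congr rfl fun i _ => this i]
    simp only [Finset.sum_const, Finset.card_univ, Fintype.card_pi, Fintype.card_fin,
      Finset.prod_const, nsmul_eq_mul, hA, hP]
    push_cast
    ring
  have hK : ∀ (a : Q × Bool) (s : ℝ),
      Integrable (fun y : Q × Bool → ℝ => Real.exp (s * y a)) (gau (Q × Bool)) := fun a s =>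
    (exp_coord a s).1
  have hK2 : ∀ a : Q × Bool, Integrable (fun y : Q × Bool → ℝ =>
      Real.exp (1 * y a) + Real.exp ((-1) * y a)) (gau (Q × Bool)) := fun a =>
    (hK a 1).add (hK a (-1))
  have hL1 : Integrable (fun y : Q × Bool → ℝ => ∑ a : Q × Bool,
      (Real.exp (1 * y a) + Real.exp ((-1) * y a))) (gau (Q × Bool)) :=
    integrable_finsetSum _ fun a _ => hK2 a
  have hL2 : ∫ y : Q × Bool → ℝ, (∑ a : Q × Bool,
      (Real.exp (1 * y a) + Real.exp ((-1) * y a))) ∂(gau (Q × Bool)) =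
        4 * Real.exp (1 / 2) * Q.card := by
    rw [integral_finsetSum _ fun a _ => hK2 a]
    have : ∀ a : Q × Bool, ∫ y : Q × Bool → ℝ, (Real.exp (1 * y a) + Real.exp ((-1) * y a))
        ∂(gau (Q × Bool)) = 2 * Real.exp (1 / 2) := by
      intro a
      rw [integral_add (hK a 1) (hK a (-1)), (exp_coord a 1).2, (exp_coord a (-1)).2]
      norm_num
      ring
    rw [Finset.sum_congr rfl fun a _ => this a]
    simp
    ring
  have hM1 : Integrable (fun y : Q × Bool → ℝ => A⁻¹ * ∑ i : Fin d → Fin n, ∑ c : Bool × Bool,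
        Real.exp (∑ a, (l * wt Q (grd n i) c a) * y a)) (gau (Q × Bool)) := hJ1.const_mul A⁻¹
  have hM2 : Integrable (fun y : Q × Bool → ℝ => Real.log A - 1 +
      A⁻¹ * ∑ i : Fin d → Fin n, ∑ c : Bool × Bool,
        Real.exp (∑ a, (l * wt Q (grd n i) c a) * y a)) (gau (Q × Bool)) :=
    (integrable_const (Real.log A - 1)).add hM1
  have hM3 : Integrable (fun y : Q × Bool → ℝ => 2 * (l⁻¹ * (Real.log A - 1 +
      A⁻¹ * ∑ i : Fin d → Fin n, ∑ c : Bool × Bool,
        Real.exp (∑ a, (l * wt Q (grd n i) c a) * y a)))) (gau (Q × Bool)) :=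
    (hM2.const_mul l⁻¹).const_mul 2
  have hM4 : Integrable (fun y : Q × Bool → ℝ => (∑ a : Q × Bool,
      (Real.exp (1 * y a) + Real.exp ((-1) * y a))) * (Q.card : ℝ)⁻¹) (gau (Q × Bool)) :=
    hL1.mul_const _
  have hgi : Integrable g (gau (Q × Bool)) := hM3.add hM4
  have hgI : ∫ y, g y ∂(gau (Q × Bool)) = 2 * (l⁻¹ * Real.log A) + 4 * Real.exp (1 / 2) := by
    simp only [hg]
    rw [integral_add hM3 hM4, integral_const_mul, integral_const_mul,
      integral_add (integrable_const _) hM1, integral_const_mul, hJ2, integral_mul_const, hL2,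
      integral_const]
    simp only [probReal_univ, smul_eq_mul, one_mul]
    rw [inv_mul_cancel₀ hA0.ne']
    field_simp
    ring
  have hfin : ∫ y, supn Q y ∂(gau (Q × Bool)) ≤ ∫ y, g y ∂(gau (Q × Bool)) :=
    integral_mono_of_nonneg (Filter.Eventually.of_forall fun y => apply_nonneg _ _) hgi
      (Filter.Eventually.of_forall hdom)
  rw [hgI] at hfin
  refine hfin.trans ?_
  -- final estimate
  have hlogA : Real.log A = 2 * Real.log P := by
    rw [hA, Real.log_mul (by positivity) (by positivity), Real.log_exp, hl2]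
    ring
  have h1 : l⁻¹ * Real.log A = l * Q.card := by
    rw [hlogA, ← hl2]
    field_simp
  have h2 : l * Q.card ≤ Real.sqrt (2 * D) * Real.sqrt (Q.card * (m + 1)) := by
    rw [← Real.sqrt_mul (by positivity)]
    apply Real.le_sqrt_of_sq_le
    calc (l * Q.card) ^ 2 = (l ^ 2 * Q.card) * Q.card := by ring
      _ = 2 * Real.log P * Q.card := by rw [hl2]
      _ ≤ 2 * (D * (m + 1)) * Q.card := by gcongr
      _ = _ := by ring
  have h3 : 1 ≤ Real.sqrt (Q.card * (m + 1)) := by
    apply Real.one_le_sqrt.2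
    have hm0 : (0 : ℝ) ≤ m := Nat.cast_nonneg m
    nlinarith
  rw [h1]
  have h4 : 0 < Real.exp (1 / 2) := Real.exp_pos _
  nlinarith

end Pool.Agent.Helper77.SB
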